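import Pool.Agent.H88.WR.Targets

/-!
# MP_479f73_an: row TAI (the tails of the functionals are small)
-/

set_option autoImplicit false

namespace Pool.Agent.H11.WR

open Filter Topology Set Pool.Agent.H85.WMP Pool.Agent.H88.WR

theorem pf_TAI (𝕜 : Type) [RCLike 𝕜] (hSML : T_SML 𝕜) : T_TAI 𝕜 := by
  intro M N hM hN S b δ hδ
  by_contra hcon
  push Not at hcon
  have hNnn : ∀ x, 0 ≤ N x := fun x => by rw [← S.norm_e]; exact norm_nonneg _
  have hb : ∀ x, ‖b (S.e x)‖ ≤ ‖b‖ * N x := fun x => by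
    rw [← S.norm_e]
    exact b.le_opNorm _
  have hz : ∀ n : ℕ, ∃ z : ℕ →₀ 𝕜, (∀ i, z i ≠ 0 → n ≤ i) ∧ N z ≤ 1 ∧
      ∃ r : ℝ, δ < r ∧ b (S.e z) = (r : 𝕜) := by
    intro n
    obtain ⟨x, hx⟩ := hcon n
    set y := x.filter (n ≤ ·) with hy
    have hyx : N y ≤ N x := hN.filter _ x
    have hx0 : 0 < N x := by
      rcases (hNnn x).lt_or_eq with h | h
      · exact h
      · exfalso
        rw [← h, mul_zero] at hx
        have h1 := hb y
        have h2 : N y = 0 := le_antisymm (by rw [h]; exact hyx) (hNnn y)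
        rw [h2, mul_zero] at h1
        linarith
    set B := b (S.e y) with hB
    have hB0 : 0 < ‖B‖ := lt_of_le_of_lt (by positivity) hx
    refine ⟨(starRingEnd 𝕜 B * ((‖B‖⁻¹ * (N x)⁻¹ : ℝ) : 𝕜)) • y, ?_, ?_, ‖B‖ * (N x)⁻¹, ?_, ?_⟩
    · intro i hi
      by_contra hni
      apply hi
      rw [Finsupp.smul_apply, hy, Finsupp.filter_apply_neg (fun a => n ≤ a) x hni, smul_zero]
    · rw [hN.smul, norm_mul, RCLike.norm_conj, RCLike.norm_ofReal,
        abs_of_pos (by positivity : (0 : ℝ) < ‖B‖⁻¹ * (N x)⁻¹)]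
      have h1 : ‖B‖ * (‖B‖⁻¹ * (N x)⁻¹) * N y = N y / N x := by
        field_simp
      rw [h1]
      exact (div_le_one hx0).2 hyx
    · rw [← div_eq_mul_inv, lt_div_iff₀ hx0]
      exact hx
    · rw [map_smul, map_smul, ← hB, smul_eq_mul, mul_right_comm, RCLike.conj_mul]
      push_cast
      have h2 : ((‖B‖ : ℝ) : 𝕜) ≠ 0 := by
        exact_mod_cast hB0.ne'
      field_simp
  choose z hz1 hz2 r hz3 hz4 using hz
  let nx : ℕ → ℕ := fun n => max (n + 1) ((z n).support.sup id + 1)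
  let m : ℕ → ℕ := fun j => nx^[j] 0
  have hm : ∀ j, m (j + 1) = nx (m j) := fun j => Function.iterate_succ_apply' nx j 0
  have hblk : Blocks m (fun j => z (m j)) := by
    refine ⟨strictMono_nat_of_lt_succ fun j => ?_, fun j i hi => ⟨hz1 _ i hi, ?_⟩⟩
    · rw [hm]
      exact lt_of_lt_of_le (Nat.lt_succ_self _) (le_max_left _ _)
    · rw [hm]
      refine lt_of_lt_of_le ?_ (le_max_right _ _)
      have h1 : i ∈ (z (m j)).support := Finsupp.mem_support_iff.2 hi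
      have h2 : id i ≤ (z (m j)).support.sup id := Finset.le_sup h1
      simp only [id_eq] at h2
      omega
  have hbn := norm_nonneg b
  obtain ⟨w, hw, hwN⟩ := hSML M N hM hN m _ hblk (fun j => hz2 _) (δ / (2 * (‖b‖ + 1)))
    (by positivity)
  have h1 : b (S.e (∑ j ∈ w.support, ((w j : ℝ) : 𝕜) • z (m j))) =
      ((∑ j ∈ w.support, w j * r (m j) : ℝ) : 𝕜) := by
    rw [map_sum, map_sum]
    push_cast
    refine Finset.sum_congr rfl fun j _ => ?_
    rw [map_smul, map_smul, hz4, smul_eq_mul]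
  have h2 : δ ≤ ∑ j ∈ w.support, w j * r (m j) := by
    have h3 : ∑ j ∈ w.support, w j = 1 := hw.2.1
    calc δ = ∑ j ∈ w.support, w j * δ := by rw [← Finset.sum_mul, h3, one_mul]
      _ ≤ _ := Finset.sum_le_sum fun j _ => mul_le_mul_of_nonneg_left (hz3 _).le (hw.1 j)
  have h3 := hb (∑ j ∈ w.support, ((w j : ℝ) : 𝕜) • z (m j))
  rw [h1, RCLike.norm_ofReal] at h3
  have h4 := le_abs_self (∑ j ∈ w.support, w j * r (m j))
  have h5 : ‖b‖ * N (∑ j ∈ w.support, ((w j : ℝ) : 𝕜) • z (m j)) ≤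
      ‖b‖ * (δ / (2 * (‖b‖ + 1))) := mul_le_mul_of_nonneg_left hwN hbn
  have h6 : ‖b‖ * (δ / (2 * (‖b‖ + 1))) < δ := by
    rw [mul_div_assoc', div_lt_iff₀ (by positivity)]
    nlinarith
  linarith

end Pool.Agent.H11.WR
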